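import Pool.Agent.V2450.WM.Lev

/-!
# MP_855f4c_ag: the Hodge level bounds the weights of the Frobenius and the index of unipotency of the
l-adic monodromy
-/

set_option autoImplicit false

open Module

universe u v w v' w'

namespace Pool.Agent.Results.MP_855f4c_ag.HodgeLevel

open Pool.Agent.H914 Pool.Agent.Y143 Pool.Agent.Y163.MW Pool.Agent.Y163.MX Pool.Agent.V2450.WM

variable {K : Type u} [Field K] {Ω : Type w} [Field Ω] [CharZero Ω] {Ω' : Type w'} [Field Ω']
  [CharZero Ω']

/-- The known properties of the `ℓ`-adic cohomology `T` and of the `p`-adic cohomology `T'` (`D_pst`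
of the `p`-adic étale cohomology, with the Hodge numbers, and the slopes of the Frobenius) of the
smooth proper varieties `X` over a finite extension `K` of `ℚ_p`: finite dimension, `N F = q F N`,
integral weights, self-duality, the Newton polygon lies above the Hodge polygon; and the comparison:
the quotient of the characteristic polynomials of the Frobenius on `H^even(X)` and on `H^odd(X)` has
rational coefficients and is the same for `T` and for `T'`. -/
structure IsPair (T : Theory.{u, v, w} K Ω) (T' : PTheory.{u, v', w'} K Ω') (q : ℕ) : Prop where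
  coh : ∀ X, (T.H X).IsCoh q
  padic : T'.IsPLocal q
  alt : ∀ X, SameAlt (T.H X) (T'.H X) (2 * X.dim)

/-- `H^m(X)` has Hodge level at most `r`: `h^(a,b)(X) = 0` for `a + b = m` unless `b - a ≤ r`. -/
def HodgeLevelLe (T' : PTheory.{u, v', w'} K Ω') (X : SmVar.{u} K) (m r : ℕ) : Prop :=
  ∀ a : ℕ, T'.hodge X m a ≠ 0 → m ≤ 2 * a + r

/-- All the eigenvalues of the Frobenius on `H^m` have a weight between `m - r` and `m + r`, and
`N ^ (r + 1) = 0` on `H^m`. -/
def Bounded (R : Coh.{v, w} Ω) (q m r : ℕ) : Prop :=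
  (∀ α, mult R m α ≠ 0 → ∃ w : ℤ, (m : ℤ) - r ≤ w ∧ w ≤ m + r ∧ IsWeilNumber q w α) ∧
    ∀ x ∈ R.gr m, (R.N ^ (r + 1)) x = 0

/-- **The Hodge level.** Let `X` be a smooth proper variety over a finite extension `K` of `ℚ_p`,
`ℓ ≠ p`, and `m ≤ 2 dim X`. Suppose that the characteristic polynomial of the Frobenius on `H^j(X)` is
rational and the same for `ℓ` and `p` for all `j ≠ m` (for example, the cohomology in the degrees
`j ≠ m` is generated by algebraic cycles). Suppose that `H^m(X)` has Hodge level at most `r`. Then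

(1) the weights of the Frobenius on the `ℓ`-adic cohomology `H^m(X)` are between `m - r` and `m + r`, and
`N ^ (r + 1) = 0` on `H^m(X)`; the same holds for the `p`-adic cohomology;

(2) if `r = 0`, then the `ℓ`-adic `H^m(X)` is mw pure of weight `m` (and `N = 0` by (1));

(3) if `r = 1`, then the `ℓ`-adic `H^m(X)` is mw pure of weight `m` if and only if the rank of `N` on
`H^m(X)` is equal to the number of the eigenvalues of the Frobenius of weight `m + 1`. -/
theorem result [IsAlgClosed Ω] [IsAlgClosed Ω'] {T : Theory.{u, v, w} K Ω}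
    {T' : PTheory.{u, v', w'} K Ω'} {q : ℕ} (hq : 1 < q) (hT : IsPair T T' q) (X : SmVar.{u} K)
    (m r : ℕ) (hm : RemainingPair (T.H X) (T'.H X) (2 * X.dim) {m})
    (hr : HodgeLevelLe T' X m r) :
    Bounded (T.H X) q m r ∧ Bounded (T'.H X) q m r ∧ (r = 0 → (T.H X).MWPure q m) ∧
    (r = 1 → ((T.H X).MWPure q m ↔
      finrank Ω (((T.H X).gr m).map (T.H X).N) = finrank Ω ((T.H X).exc q m 1))) := by
  classical
  obtain ⟨P, hP, hP'⟩ := common (hT.coh X) (hT.alt X) hm
  have hR := hT.coh X
  have hR' := hT.padic.coh X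
  have hfin := hR.finite
  have hfin' := hR'.finite
  have hrat : RationalPoly (charP (T'.H X) m) := ⟨P, by simpa [charS] using hP'⟩
  have h1 : ∀ α, mult (T'.H X) m α ≠ 0 → |Coh.wtf q α - (m : ℤ)| ≤ r := fun α hα =>
    weight_level hq hR' hrat hT.padic.val (hT.padic.polygons X m) hr hα
  have h2 : ∀ c : ℤ, (r : ℤ) < |c| → (T'.H X).exc q m c = ⊥ := fun c hc => by
    rw [← Submodule.finrank_eq_zero (R := Ω')]
    exact exc_level hq hR' h1 hc
  have h3 : ∀ c : ℤ, (r : ℤ) < |c| → (T.H X).exc q m c = ⊥ := by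
    intro c hc
    have h4 := weightsS_congr hq hR hR' hP hP' (m + c)
    rw [Finset.sum_singleton, Finset.sum_singleton,
      show (m : ℤ) + c - m = c by ring, h2 c hc, finrank_bot] at h4
    rw [← Submodule.finrank_eq_zero (R := Ω)]
    exact h4
  have h5 : ∀ α, mult (T.H X) m α ≠ 0 →
      ∃ w : ℤ, (m : ℤ) - r ≤ w ∧ w ≤ m + r ∧ IsWeilNumber q w α := by
    intro α hα
    have hw := mult_wt hq hR hα
    refine ⟨_, ?_, ?_, hw⟩
    · by_contra hcon
      push Not at hcon
      have h6 : (T.H X).exc q m (Coh.wtf q α - m) = ⊥ := h3 _ (by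
        rw [lt_abs]
        right
        linarith)
      have h7 : (T.H X).gr m ⊓ (T.H X).F.maxGenEigenspace α ≤ ⊥ := by
        rw [← h6]
        refine le_iSup₂_of_le α ?_ le_rfl
        rw [show (m : ℤ) + (Coh.wtf q α - m) = Coh.wtf q α by ring]
        exact hw
      apply hα
      unfold mult
      rw [le_bot_iff.1 h7, finrank_bot]
    · by_contra hcon
      push Not at hcon
      have h6 : (T.H X).exc q m (Coh.wtf q α - m) = ⊥ := h3 _ (by
        rw [lt_abs]
        left
        linarith)
      have h7 : (T.H X).gr m ⊓ (T.H X).F.maxGenEigenspace α ≤ ⊥ := by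
        rw [← h6]
        refine le_iSup₂_of_le α ?_ le_rfl
        rw [show (m : ℤ) + (Coh.wtf q α - m) = Coh.wtf q α by ring]
        exact hw
      apply hα
      unfold mult
      rw [le_bot_iff.1 h7, finrank_bot]
  have h6 : ∀ α, mult (T'.H X) m α ≠ 0 →
      ∃ w : ℤ, (m : ℤ) - r ≤ w ∧ w ≤ m + r ∧ IsWeilNumber q w α := by
    intro α hα
    have h7 := abs_le.1 (h1 α hα)
    exact ⟨_, by linarith [h7.1], by linarith [h7.2], mult_wt hq hR' hα⟩
  refine ⟨⟨h5, nilp_level hq hR h3⟩, ⟨h6, nilp_level hq hR' h2⟩, fun h0 => ?_, fun h0 => ?_⟩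
  · subst h0
    exact pure_zero hq hR (fun c hc => h3 c (by exact_mod_cast hc))
  · subst h0
    exact pure_one hq hR (fun c hc => h3 c (by exact_mod_cast hc))

end Pool.Agent.Results.MP_855f4c_ag.HodgeLevel
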