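import Pool.Agent.V2450.WM.Pair

/-!
# MP_855f4c_ag: the l-adic monodromy is bounded by the Hodge numbers; if it is maximal, the
monodromy-weight conjecture holds
-/

set_option autoImplicit false

open Module

universe u v w v' w'

namespace Pool.Agent.Results.MP_855f4c_ag.HodgeNumbersBound

open Pool.Agent.H914 Pool.Agent.Y143 Pool.Agent.Y163.MW Pool.Agent.Y163.MX Pool.Agent.V2450.WM

variable {K : Type u} [Field K] {Ω : Type w} [Field Ω] [CharZero Ω] {Ω' : Type w'} [Field Ω']
  [CharZero Ω']

/-- The known properties of the `ℓ`-adic cohomology `T` and of the `p`-adic cohomology `T'` (`D_pst`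
of the `p`-adic étale cohomology, with the Hodge numbers, and the slopes of the Frobenius) of the
smooth proper varieties `X` over a finite extension `K` of `ℚ_p`: finite dimension, `N F = q F N`,
integral weights, self-duality, the Newton polygon lies above the Hodge polygon; and the comparison:
the Betti numbers agree, and the quotient of the characteristic polynomials of the Frobenius on
`H^even(X)` and on `H^odd(X)` has rational coefficients and is the same for `T` and for `T'`. -/
structure IsPair (T : Theory.{u, v, w} K Ω) (T' : PTheory.{u, v', w'} K Ω') (q : ℕ) : Prop where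
  coh : ∀ X, (T.H X).IsCoh q
  padic : T'.IsPLocal q
  betti : ∀ X m, finrank Ω ((T.H X).gr m) = finrank Ω' ((T'.H X).gr m)
  alt : ∀ X, SameAlt (T.H X) (T'.H X) (2 * X.dim)

/-- The number `2 ∑ k rank (N ^ k)` on the sum of the groups `H^m(X)`, `m ∈ S`. -/
noncomputable def ranks (T : Theory.{u, v, w} K Ω) (X : SmVar.{u} K) (S : Finset ℕ) : ℤ :=
  ∑ m ∈ S, (T.H X).rankMoment m

/-- The number `∑ (w - m)²` on the sum of the groups `H^m(X)`, `m ∈ S`; here `w` runs through the
weights of the eigenvalues of the Frobenius on `H^m(X)`. -/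
noncomputable def weights (T : Theory.{u, v, w} K Ω) (q : ℕ) (X : SmVar.{u} K) (S : Finset ℕ) :
    ℤ := ∑ m ∈ S, (T.H X).weightMoment q m

/-- The number `∑ (a - b)² h^(a,b)(X)`, over all `a`, `b` with `a + b ∈ S`. -/
noncomputable def hodge (T' : PTheory.{u, v', w'} K Ω') (X : SmVar.{u} K) (S : Finset ℕ) : ℤ :=
  ∑ m ∈ S, hodgeMoment m (T'.hodge X m)

/-- The number of the Frobenius eigenvalues on the graded pieces of the monodromy filtrations `M m` of
the groups `H^m(X)`, `m ∈ S`, whose weight is not the expected one. -/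
noncomputable def wrong (T : Theory.{u, v, w} K Ω) (q : ℕ) (X : SmVar.{u} K) (S : Finset ℕ)
    (M : ℕ → ℤ → Submodule Ω (T.H X).V) : ℤ :=
  ∑ m ∈ S, ((finrank Ω ((T.H X).gr m) : ℤ) - rightDeg (T.H X) q m (M m))

/-- `M m` is the monodromy filtration of `H^m(X)` for all `m ∈ S`. -/
def IsMonFil (T : Theory.{u, v, w} K Ω) (X : SmVar.{u} K) (S : Finset ℕ)
    (M : ℕ → ℤ → Submodule Ω (T.H X).V) : Prop :=
  ∀ m ∈ S, IsMonodromyFiltrationOn ((T.H X).gr m) (T.H X).N (M m)

/-- **The `ℓ`-adic monodromy and the Hodge numbers.** Let `X` be a smooth proper variety over a finite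
extension `K` of `ℚ_p`, `ℓ ≠ p`, and let `S` be a set of degrees `m ≤ 2 dim X` of one parity such that
in the degrees outside `S` the characteristic polynomials of the Frobenius are rational and the same
for `ℓ` and `p` (for example, `S = {m}` and the cohomology in the other degrees is generated by
algebraic cycles; or `X` has no odd cohomology, and `S` is the set of all even degrees). Then, for the
`ℓ`-adic cohomology,

(1) `2 ∑ k rank (N ^ k) ≤ ∑ (w - m)² ≤ ∑ (a - b)² h^(a,b)`, summed over `m ∈ S`, `a + b ∈ S`;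

(2) the number of the eigenvalues of the Frobenius on the graded pieces of the monodromy filtrations
of the `H^m(X)`, `m ∈ S`, whose weight is not the one predicted by the monodromy-weight conjecture, is
at most `∑ (a - b)² h^(a,b) - 2 ∑ k rank (N ^ k)`;

(3) if `2 ∑ k rank (N ^ k)` is equal to `∑ (a - b)² h^(a,b)`, then `H^m(X)` is mw pure of weight `m` for
all `m ∈ S`, and on the sum of the `H^m(X)`, `m ∈ S`, there are `∑ h^(a, m - a)` eigenvalues of weight
`2 a`. -/
theorem result [IsAlgClosed Ω] [IsAlgClosed Ω'] {T : Theory.{u, v, w} K Ω}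
    {T' : PTheory.{u, v', w'} K Ω'} {q : ℕ} (hq : 1 < q) (hT : IsPair T T' q) (X : SmVar.{u} K)
    (S : Finset ℕ) (hS : RemainingPair (T.H X) (T'.H X) (2 * X.dim) S) :
    (ranks T X S ≤ weights T q X S ∧ weights T q X S ≤ hodge T' X S) ∧
    (∀ M, IsMonFil T X S M → wrong T q X S M ≤ hodge T' X S - ranks T X S) ∧
    (ranks T X S = hodge T' X S → (∀ m ∈ S, (T.H X).MWPure q m) ∧
      ∀ a : ℕ, ∑ m ∈ S, finrank Ω ((T.H X).exc q m (2 * (a : ℤ) - m)) =
        ∑ m ∈ S, T'.hodge X m a) := by
  obtain ⟨P, hP, hP'⟩ := common (hT.coh X) (hT.alt X) hS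
  have hR := hT.coh X
  have hR' := hT.padic.coh X
  have hN : ∀ m ∈ S, NewtonAboveHodge (T'.H X) T'.val m (T'.hodge X m) :=
    fun m _ => hT.padic.polygons X m
  obtain ⟨h1, h2, h3⟩ := sandwichS hq hR' ⟨P, hP'⟩ hT.padic.val hN
  have e : ((hodge T' X S : ℤ) : ℝ) = ∑ m ∈ S, (hodgeMoment m (T'.hodge X m) : ℝ) := by
    unfold hodge
    push_cast
    rfl
  have e0 : weights T q X S = ∑ m ∈ S, (T'.H X).weightMoment q m :=
    weightS_congr hq hR hR' hP hP' (hT.betti X)
  have h4 : weights T q X S ≤ hodge T' X S := by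
    rw [e0]
    have h5 : ((∑ m ∈ S, (T'.H X).weightMoment q m : ℤ) : ℝ) ≤ (hodge T' X S : ℝ) := by
      rw [e]
      push_cast
      exact h2.trans h3
    exact_mod_cast h5
  have h6 := rankS_le hq hR S
  refine ⟨⟨h6.1, h4⟩, fun M hM => ?_, fun h => ⟨?_, fun a => ?_⟩⟩
  · have h7 := wrongS_le hq hR S hM
    have h8 : wrong T q X S M ≤ weights T q X S - ranks T X S := h7
    linarith
  · apply h6.2.1
    have h7 : ranks T X S ≤ weights T q X S := h6.1
    have h8 : ranks T X S = weights T q X S := by linarith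
    exact h8
  · have h7 : ∑ m ∈ S, hodgeMoment m (T'.hodge X m) ≤ ∑ m ∈ S, (T'.H X).weightMoment q m := by
      rw [← e0]
      have h8 : ranks T X S ≤ weights T q X S := h6.1
      have h9 : hodge T' X S ≤ weights T q X S := by linarith
      exact h9
    have h8 := extremalS hq hR' ⟨P, hP'⟩ hT.padic.val hN h7
    rw [weightsS_congr hq hR hR' hP hP' (2 * (a : ℤ))]
    exact Finset.sum_congr rfl fun m hm => (h8 m hm).2 a

end Pool.Agent.Results.MP_855f4c_ag.HodgeNumbersBound
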