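import Pool.Agent.V1157.MW.Law

/-!
# MP_855f4c_ag: an arbitrarily small share of right weights suffices for monodromy-weight purity
-/

set_option autoImplicit false

open Module Filter Topology

universe u v w

namespace Pool.Agent.Results.MP_855f4c_ag.PositiveShare

open Pool.Agent.Y143 Pool.Agent.H914 Pool.Agent.Y163.MW Pool.Agent.V1157.MW

variable {K : Type u} [Field K] {Ω : Type w} [Field Ω] [CharZero Ω]

/-- `H^m(X)` is mw pure of weight `m` for all `m`. -/
def MW (T : Theory.{u, v, w} K Ω) (q : ℕ) (X : SmVar.{u} K) : Prop := ∀ m, (T.H X).MWPure q m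

/-- `M` is the monodromy filtration of the whole cohomology of `X`. -/
def IsMonFil (T : Theory.{u, v, w} K Ω) (X : SmVar.{u} K) (M : ℤ → Submodule Ω (T.H X).V) : Prop :=
  IsMonodromyFiltrationOn ⊤ (T.H X).N M

/-- The dimension of the whole cohomology of `X`. -/
noncomputable def betti (T : Theory.{u, v, w} K Ω) (X : SmVar.{u} K) : ℕ := finrank Ω (T.H X).V

/-- The number of the eigenvalues of the Frobenius on the graded pieces of the monodromy filtration
`M` of the cohomology of `X` which have the weight predicted by the monodromy-weight conjecture. -/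
noncomputable def right (T : Theory.{u, v, w} K Ω) (q : ℕ) (X : SmVar.{u} K)
    (M : ℤ → Submodule Ω (T.H X).V) : ℤ := (T.H X).right q M

/-- The product `Z × X^(n+1)`. -/
noncomputable abbrev times (Z X : SmVar.{u} K) (n : ℕ) : SmVar.{u} K := Z.prod (pow X n)

/-- The alternative for `X`, `Z` and `n`: if `X` is mw pure, the share of the right weights on
`Z × X^(n+1)` is the same as on `Z`; if not, it is at most `√(b(X) / (n + 1))`. -/
def Alternative (T : Theory.{u, v, w} K Ω) (q : ℕ) (X Z : SmVar.{u} K) (n : ℕ) : Prop :=
  ∀ MZ M, IsMonFil T Z MZ → IsMonFil T (times Z X n) M →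
    (MW T q X → right T q (times Z X n) M * betti T Z = right T q Z MZ * betti T (times Z X n)) ∧
    (¬ MW T q X → (right T q (times Z X n) M : ℝ) ≤
      √((betti T X : ℝ) / (n + 1)) * betti T (times Z X n))

/-- The number of the right weights on `X` is at least `ε` times the number of all weights. -/
def ShareAtLeast (T : Theory.{u, v, w} K Ω) (q : ℕ) (ε : ℝ) (X : SmVar.{u} K) : Prop :=
  ∀ M, IsMonFil T X M → ε * betti T X ≤ right T q X M

/-- The index law for `X`: the ratio of the dimension of the kernel of `N` on the cohomology of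
`X^(n+1)` and the dimension predicted by the weights tends to `√(W / R)`, where `W` is the sum of the
`(w - m)²` over all Frobenius eigenvalues on all `H^m(X)` (of weight `w`) and
`R = 2 ∑ k rank (N ^ k)`. -/
def IndexLaw (T : Theory.{u, v, w} K Ω) (q : ℕ) (X : SmVar.{u} K) : Prop :=
  Tendsto (fun n : ℕ => ((T.H (pow X n)).inv : ℝ) / ((T.H (pow X n)).pred q : ℝ)) atTop
    (𝓝 (√(((T.H X).totWeightMoment q : ℝ) / ((T.H X).totRankMoment : ℝ))))

/-- **An arbitrarily small positive share suffices.** Let `P` be a class of smooth proper varieties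
over the local field `K`, closed under products (for example the projective ones), whose cohomology
has the known properties.

(0) The cohomology of every `X` in `P` has a monodromy filtration.

(1) For all `X`, `Z` in `P`: if `X` is mw pure, then the share of the right weights on `Z × X^n` is the
share on `Z`, for all `n ≥ 1`; if `X` is not mw pure, this share is at most `√(b(X) / n)`.

(2) For every subclass `S` closed under products: all members of `S` are mw pure if and only if there
is an `ε > 0` such that for every member at least the share `ε` of its weights is right.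

(3) `X` is mw pure if and only if the kernel of `N` on the cohomology of `X × X` has the dimension
predicted by the weights.

(4) `R ≤ W` with equality if and only if `X` is mw pure, and the index law holds if `N ≠ 0`. -/
theorem result [IsAlgClosed Ω] (T : Theory.{u, v, w} K Ω) (q : ℕ) (P : SmVar.{u} K → Prop)
    (hq : 1 < q) (hT : IsLocalOn T q P) :
    (∀ X, P X → ∃ M, IsMonFil T X M) ∧
    (∀ X Z, P X → P Z → ∀ n, Alternative T q X Z n) ∧
    (∀ S : SmVar.{u} K → Prop, (∀ X, S X → P X) → (∀ X Y, S X → S Y → S (X.prod Y)) →
      ((∀ X, S X → MW T q X) ↔ ∃ ε : ℝ, 0 < ε ∧ ∀ X, S X → ShareAtLeast T q ε X)) ∧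
    (∀ X, P X → ((T.H (X.prod X)).inv = (T.H (X.prod X)).pred q ↔ MW T q X)) ∧
    ∀ X, P X → (T.H X).totRankMoment ≤ (T.H X).totWeightMoment q ∧
      ((T.H X).totRankMoment = (T.H X).totWeightMoment q ↔ MW T q X) ∧
      ((T.H X).N ≠ 0 → IndexLaw T q X) := by
  refine ⟨fun X hX => exists_mon hq (hT.coh X hX), fun X Z hX hZ n MZ M hMZ hM =>
    law hT hq hZ hX n hMZ hM, fun S hSP hS => classes hT hq S hSP hS,
    fun X hX => square_iff' hT hq hX, fun X hX => ?_⟩
  obtain ⟨h1, h2⟩ := moments hT hq hX
  exact ⟨h1, h2, fun hN => index_law' hT hq hX hN⟩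

end Pool.Agent.Results.MP_855f4c_ag.PositiveShare
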