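import Pool.Agent.H44T.MW.Twist

/-!
# The monodromy-weight conjecture and the Galois invariants of the twists of `H^m`

Let `K` be a local field whose residue field has `q` elements. We consider a class `P` of smooth
proper varieties over `K` which is closed under products and whose cohomology has the known
properties (`IsLocalOn`): for example all finite products of the generic fibres `X_K` of the
projective semistable schemes of the problem.

**Part (1).** For every `X` in `P`, all `H^m(X)` are mw pure if and only if every eigenvector `x` of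
the Frobenius in `H^n(X × X)` which is killed by `N` and whose weight is larger than `n` lies in the
image of `N`. (Under mw purity there are no such `x ≠ 0`.) No semisimplicity of the Frobenius is
needed.

**Part (2).** Assume that `P` contains enough varieties with good reduction (`HasTwists`): for every
eigenvalue `β` of the Frobenius on the cohomology of a member of `P` there is `A` in `P` with
unramified cohomology and an eigenvalue `γ` of weight `b` on `H^b(A)` with `β γ` a power of `q`. By
the theorems of Honda and Tate (applied to Weil restrictions) and since abelian varieties over finite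
fields are isogenous to factors of liftable ones, this holds if `P` contains the abelian varieties over
`K` with good reduction. Let `H^m(X)(r)^G` be the space of the `x` in `H^m(X)` with `N x = 0` and
`F x = q ^ r x` (the invariants of the Galois group of `K` in the Tate twist `H^m(X)(r)`, if inertia acts
unipotently). Then the following are equivalent:

* all `H^m(X)`, `X` in `P`, are mw pure (the monodromy-weight conjecture for `P`);
* `H^m(X)(r)^G = 0` for all `X` in `P` and `m < 2 r`;
* `H^(2k)(X)(r)^G` lies in the image of `N` for all `X` in `P` and `k < r`;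
* `H^m(X)(r)^G` lies in the image of `N` for all `X` in `P` and `m ≠ 2 r`.
-/

set_option autoImplicit false

open Module

universe u v w

namespace Pool.Agent.Results.MP_855f4c_ag.WrongInvariants

open Pool.Agent.Y143 Pool.Agent.H914 Pool.Agent.Y163.MW Pool.Agent.Y163.MW.Coh
  Pool.Agent.V1157.MW Pool.Agent.H44T.MW

variable {K : Type u} [Field K] {Ω : Type w} [Field Ω] [CharZero Ω]

/-- Every eigenvalue `β` of the Frobenius on the cohomology of a member of `P` can be completed to a
power of `q` by an eigenvalue `γ` of weight `b` on the unramified cohomology `H^b(A)` of a member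
`A` of `P`. -/
def HasTwists (T : Theory.{u, v, w} K Ω) (q : ℕ) (P : SmVar.{u} K → Prop) : Prop :=
  ∀ X, P X → ∀ (m : ℕ) (β : Ω), ∀ x ∈ (T.H X).gr m, x ≠ 0 → (T.H X).F x = β • x →
    ∃ A, P A ∧ (T.H A).N = 0 ∧ ∃ (b r : ℕ) (γ : Ω), ∃ y ∈ (T.H A).gr b, y ≠ 0 ∧
      (T.H A).F y = γ • y ∧ IsWeilNumber q b γ ∧ β * γ = (q : Ω) ^ r

/-- `H^m(X)` is mw pure of weight `m` for all `m`. -/
def MW (T : Theory.{u, v, w} K Ω) (q : ℕ) (X : SmVar.{u} K) : Prop := ∀ m, (T.H X).MWPure q m

/-- Every eigenvector of the Frobenius in `H^n(X)` which is killed by `N` and has a weight larger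
than `n` lies in the image of `N`. -/
def HeavyInImage (T : Theory.{u, v, w} K Ω) (q : ℕ) (X : SmVar.{u} K) : Prop :=
  ∀ (n : ℕ) (w : ℤ) (β : Ω), ∀ x ∈ (T.H X).gr n, (T.H X).N x = 0 → (T.H X).F x = β • x →
    IsWeilNumber q w β → (n : ℤ) < w → x ∈ LinearMap.range (T.H X).N

/-- The square of a pure variety is pure. -/
lemma prod_pure [IsAlgClosed Ω] {T : Theory.{u, v, w} K Ω} {q : ℕ} {P : SmVar.{u} K → Prop}
    (hT : IsLocalOn T q P) (hq : 1 < q) {X : SmVar.{u} K} (hX : P X) (h : MW T q X) :
    MW T q (X.prod X) := by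
  obtain ⟨S⟩ := exists_strings hq (hT.coh X hX)
  obtain ⟨κ, hκ⟩ := hT.kunneth X X hX hX
  have hY := hT.prod X X hX hX
  obtain ⟨κ', hκ'⟩ := hT.kunneth _ _ hY hY
  have H := (adp_strings S).prod (adp_strings S) (by omega) hκ
  have H' := H.prod H (by omega) hκ'
  rw [MW, ← square_iff' hT hq hY, H'.inv_eq b1, H'.pred_eq hq (hT.coh _ (hT.prod _ _ hY hY))]
  have h0 := (mw_iff hq (hT.coh X hX) S).1 h
  have h1 : S.ct = S.wt := by
    funext p
    unfold Strings.ct Strings.wt
    rw [h0 p.1]
  rw [h1]

/-- **The monodromy-weight conjecture and Galois invariants.** -/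
theorem result [IsAlgClosed Ω] (T : Theory.{u, v, w} K Ω) (q : ℕ) (P : SmVar.{u} K → Prop)
    (hq : 1 < q) (hT : IsLocalOn T q P) :
    (∀ X, P X → (MW T q X ↔ HeavyInImage T q (X.prod X))) ∧
    (HasTwists T q P → List.TFAE [
      ∀ X, P X → MW T q X,
      ∀ X, P X → ∀ m r, m < 2 * r → Inv (T.H X) q m r = ⊥,
      ∀ X, P X → ∀ k r, k < r → Inv (T.H X) q (2 * k) r ≤ LinearMap.range (T.H X).N,
      ∀ X, P X → ∀ m r, m ≠ 2 * r → Inv (T.H X) q m r ≤ LinearMap.range (T.H X).N]) := by
  refine ⟨fun X hX => ⟨fun h => ?_, fun h => ?_⟩, fun htw => ?_⟩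
  · intro n w β x hx hN hF hβ hw
    have hY := hT.prod X X hX hX
    rw [ker_pos hq (hT.coh _ hY) (prod_pure hT hq hX h n) hx hN hF hβ hw]
    exact Submodule.zero_mem _
  · obtain ⟨κ, hκ⟩ := hT.kunneth X X hX hX
    refine square hq (hT.coh X hX) hκ fun m c β x hx hN hF hβ hc => ?_
    exact h (2 * m) (2 * (m + c)) β x hx hN hF hβ (by push_cast; omega)
  · tfae_have 1 → 2 := fun h X hX m r hm => inv_eq_bot hq (hT.coh X hX) (h X hX m) hm
    tfae_have 1 → 4 := fun h X hX m r hm => inv_le hq (hT.coh X hX) (h X hX m) hm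
    tfae_have 2 → 3 := fun h X hX k r hk => by
      rw [h X hX (2 * k) r (by omega)]
      exact bot_le
    tfae_have 4 → 3 := fun h X hX k r hk => h X hX (2 * k) r (by omega)
    tfae_have 3 → 1 := by
      intro h X hX
      obtain ⟨κ, hκ⟩ := hT.kunneth X X hX hX
      refine square hq (hT.coh X hX) hκ ?_
      intro n c β x hx hN hF hβ hc
      by_cases hx0 : x = 0
      · rw [hx0]; exact Submodule.zero_mem _
      have hY := hT.prod X X hX hX
      obtain ⟨A, hA, hNA, b, r, γ, y, hy, hy0, hyF, hγ, hβγ⟩ := htw _ hY (2 * n) β x hx hx0 hF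
      obtain ⟨κ', hκ'⟩ := hT.kunneth _ A hY hA
      have hwt : 2 * (n + c) + b = 2 * (r : ℤ) := by
        have h1 := weil_mul (by omega : 0 < q) hβ hγ
        rw [hβγ] at h1
        exact weil_unique hq h1 (weil_natPow (by omega) r)
      obtain ⟨k, hk⟩ : ∃ k : ℕ, 2 * n + b = 2 * k := ⟨n + b / 2, by omega⟩
      have h1 : tm κ' x y ∈ Inv (T.H ((X.prod X).prod A)) q (2 * k) r := by
        refine mem_Inv.2 ⟨?_, twist_N hκ' hNA hN, ?_⟩
        · rw [← hk]; exact hκ'.degree (2 * n) b x y hx hy
        · rw [twist_F hκ' hF hyF, hβγ]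
      have h2 := h _ (hT.prod _ _ hY hA) k r (by omega) h1
      have h3 := twist_mem hκ' hNA hy0 (k := 1) (by rw [pow_one]; exact h2)
      rwa [pow_one] at h3
    tfae_finish

end Pool.Agent.Results.MP_855f4c_ag.WrongInvariants
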